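import Mathlib.Order.Filter.AtTopBot.Basic
import Mathlib.Algebra.Order.Archimedean.Real.Basic
import Mathlib.Tactic

/-!
# Amplification by powers

`Obj` are objects with a dimension, `D X t` says that the defect of `X` is at least `t`. If defects add
up under products and the dimension can be raised by one without changing the defect, an object with a
positive defect gives objects in all large dimensions `n` with defects at least `c n`, `c > 0`.
-/

set_option autoImplicit false

namespace Pool.Agent.Q16.AMP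

open Filter

variable {Obj : Type*} {dim : Obj → ℕ} {D : Obj → ℝ → Prop}

theorem pad_many (hpad : ∀ X t, D X t → ∃ P, dim P = dim X + 1 ∧ D P t) :
    ∀ (m : ℕ) (X : Obj) (t : ℝ), D X t → ∃ P, dim P = dim X + m ∧ D P t := by
  intro m
  induction m with
  | zero => exact fun X t h => ⟨X, rfl, h⟩
  | succ m ih =>
    intro X t h
    obtain ⟨P, h1, h2⟩ := ih X t h
    obtain ⟨Q, h3, h4⟩ := hpad P t h2
    exact ⟨Q, by rw [h3, h1]; ring, h4⟩

theorem power (hprod : ∀ X Y s t, D X s → D Y t → ∃ P, dim P = dim X + dim Y ∧ D P (s + t)) :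
    ∀ (k : ℕ) (X : Obj) (t : ℝ), D X t → ∃ P, dim P = (k + 1) * dim X ∧ D P ((k + 1) * t) := by
  intro k
  induction k with
  | zero => exact fun X t h => ⟨X, by simp, by simpa using h⟩
  | succ k ih =>
    intro X t h
    obtain ⟨P, h1, h2⟩ := ih X t h
    obtain ⟨Q, h3, h4⟩ := hprod P X _ _ h2 h
    refine ⟨Q, by rw [h3, h1]; ring, ?_⟩
    have e : ((k + 1 : ℕ) + 1 : ℝ) * t = ((k : ℝ) + 1) * t + t := by push_cast; ring
    rw [e]
    exact h4

/-- an object of positive defect `t` and dimension `n₀` gives objects of every dimension `n ≥ n₀` with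
defect `⌊n / n₀⌋ t` -/
theorem multiples (hprod : ∀ X Y s t, D X s → D Y t → ∃ P, dim P = dim X + dim Y ∧ D P (s + t))
    (hpad : ∀ X t, D X t → ∃ P, dim P = dim X + 1 ∧ D P t) {X : Obj} {t : ℝ} (h : D X t)
    (hd : 0 < dim X) (n : ℕ) (hn : dim X ≤ n) :
    ∃ P, dim P = n ∧ D P ((n / dim X : ℕ) * t) := by
  have hq : 0 < n / dim X := Nat.div_pos hn hd
  obtain ⟨k, hk⟩ : ∃ k, n / dim X = k + 1 := ⟨n / dim X - 1, by omega⟩
  obtain ⟨P, h1, h2⟩ := power hprod k X t h
  obtain ⟨Q, h3, h4⟩ := pad_many hpad (n % dim X) P _ h2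
  refine ⟨Q, ?_, ?_⟩
  · rw [h3, h1, ← hk, mul_comm]
    exact Nat.div_add_mod n (dim X)
  · rw [hk]
    push_cast
    exact h4

/-- an object of positive defect gives defects of linear growth in all large dimensions -/
theorem linear_growth
    (hprod : ∀ X Y s t, D X s → D Y t → ∃ P, dim P = dim X + dim Y ∧ D P (s + t))
    (hpad : ∀ X t, D X t → ∃ P, dim P = dim X + 1 ∧ D P t) {X : Obj} {t : ℝ} (h : D X t)
    (ht : 0 < t) : ∃ c : ℝ, 0 < c ∧ ∃ N : ℕ, ∀ n : ℕ, N ≤ n → ∃ P s, dim P = n ∧ D P s ∧ c * n < s := by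
  obtain ⟨Y, hY1, hY2⟩ := hpad X t h
  set d := dim Y with hd
  have hd0 : 0 < d := by omega
  have hdR : (0 : ℝ) < d := by exact_mod_cast hd0
  refine ⟨t / (3 * d), by positivity, 3 * d, fun n hn => ?_⟩
  obtain ⟨P, h1, h2⟩ := multiples hprod hpad hY2 hd0 n (by omega)
  refine ⟨P, _, h1, h2, ?_⟩
  have h3 : (n : ℝ) < (n / d : ℕ) * d + d := by
    have := Nat.lt_div_mul_add (a := n) hd0
    exact_mod_cast this
  have h4 : (3 : ℝ) * d ≤ n := by exact_mod_cast hn
  have h5 : (2 / 3 : ℝ) * n < (n / d : ℕ) * d := by linarith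
  have h6 : (n : ℝ) / (3 * d) < (n / d : ℕ) := by
    rw [div_lt_iff₀ (by positivity)]
    nlinarith
  calc t / (3 * d) * n = (n : ℝ) / (3 * d) * t := by ring
    _ < (n / d : ℕ) * t := mul_lt_mul_of_pos_right h6 ht

/-- **Amplification.** All defects are `≤ 0` if (and only if) for every `c > 0` there are arbitrarily
large dimensions `n` in which all defects are at most `c n`. -/
theorem amplify (hprod : ∀ X Y s t, D X s → D Y t → ∃ P, dim P = dim X + dim Y ∧ D P (s + t))
    (hpad : ∀ X t, D X t → ∃ P, dim P = dim X + 1 ∧ D P t) :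
    (∀ X t, D X t → t ≤ 0) ↔
      ∀ c : ℝ, 0 < c → ∃ᶠ n : ℕ in atTop, ∀ X, dim X = n → ∀ s, D X s → s ≤ c * n := by
  constructor
  · intro h c hc
    refine (Eventually.of_forall fun n X _ s hs => ?_).frequently
    have := h X s hs
    have : 0 ≤ c * (n : ℝ) := by positivity
    linarith
  · intro h X t hX
    by_contra ht
    obtain ⟨c, hc, N, hN⟩ := linear_growth hprod hpad hX (not_le.1 ht)
    obtain ⟨n, hn, hn2⟩ := (frequently_atTop.1 (h c hc)) N
    obtain ⟨P, s, h1, h2, h3⟩ := hN n hn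
    exact absurd (hn2 P h1 s h2) (not_le.2 h3)

end Pool.Agent.Q16.AMP
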